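import Pool.Agent.Run7.h384.BU.Defs

/-!
# Ranks and Euler characteristics of finite sums
-/

set_option autoImplicit false

namespace Pool.Agent.Run7.h384.BU

/-- all spaces are finite-dimensional, almost all are zero -/
def Fin1 (V : ℤ → Type) [∀ k, AddCommGroup (V k)] [∀ k, Module ℚ (V k)] : Prop :=
  (∀ k, Module.Finite ℚ (V k)) ∧ {k | ¬ Subsingleton (V k)}.Finite

/-- Euler characteristic -/
noncomputable def chi1 (V : ℤ → Type) [∀ k, AddCommGroup (V k)] [∀ k, Module ℚ (V k)] : ℤ :=
  ∑ᶠ k : ℤ, (k.negOnePow : ℤ) * (Module.finrank ℚ (V k) : ℤ)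

section

variable {V W : ℤ → Type} [∀ k, AddCommGroup (V k)] [∀ k, Module ℚ (V k)] [∀ k, AddCommGroup (W k)]
  [∀ k, Module ℚ (W k)]

lemma chi1_support (h : Fin1 V) :
    (Function.support fun k : ℤ => (k.negOnePow : ℤ) * (Module.finrank ℚ (V k) : ℤ)).Finite := by
  refine h.2.subset fun k hk hs => hk ?_
  have : Module.finrank ℚ (V k) = 0 := Module.finrank_zero_of_subsingleton
  simp [this]

lemma Fin1.iso (e : ∀ k, Nonempty (V k ≃ₗ[ℚ] W k)) (h : Fin1 V) : Fin1 W := by
  refine ⟨fun k => ?_, h.2.subset fun k hk hs => hk ?_⟩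
  · obtain ⟨e⟩ := e k
    have := h.1 k
    exact Module.Finite.equiv e
  · obtain ⟨e⟩ := e k
    exact e.symm.toEquiv.subsingleton

lemma chi1_iso (e : ∀ k, Nonempty (V k ≃ₗ[ℚ] W k)) : chi1 V = chi1 W := by
  refine finsum_congr fun k => ?_
  obtain ⟨e⟩ := e k
  rw [e.finrank_eq]

lemma Fin1.prod_iff : Fin1 (fun k => V k × W k) ↔ Fin1 V ∧ Fin1 W := by
  constructor
  · intro h
    refine ⟨⟨fun k => ?_, h.2.subset fun k hk hs => hk ?_⟩,
      ⟨fun k => ?_, h.2.subset fun k hk hs => hk ?_⟩⟩
    · have := h.1 k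
      exact Module.Finite.of_surjective (LinearMap.fst ℚ (V k) (W k)) LinearMap.fst_surjective
    · exact (LinearMap.fst_surjective (R := ℚ) (M := V k) (M₂ := W k)).subsingleton
    · have := h.1 k
      exact Module.Finite.of_surjective (LinearMap.snd ℚ (V k) (W k)) LinearMap.snd_surjective
    · exact (LinearMap.snd_surjective (R := ℚ) (M := V k) (M₂ := W k)).subsingleton
  · rintro ⟨h1, h2⟩
    refine ⟨fun k => ?_, (h1.2.union h2.2).subset fun k hk => ?_⟩
    · have := h1.1 k
      have := h2.1 k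
      infer_instance
    · by_contra h3
      rw [Set.mem_union, not_or] at h3
      have a1 : Subsingleton (V k) := not_not.mp h3.1
      have a2 : Subsingleton (W k) := not_not.mp h3.2
      exact hk (inferInstanceAs (Subsingleton (V k × W k)))

lemma chi1_prod (h1 : Fin1 V) (h2 : Fin1 W) : chi1 (fun k => V k × W k) = chi1 V + chi1 W := by
  rw [chi1, chi1, chi1, ← finsum_add_distrib (chi1_support h1) (chi1_support h2)]
  refine finsum_congr fun k => ?_
  have := h1.1 k
  have := h2.1 k
  rw [Module.finrank_prod]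
  push_cast
  ring

end

section

variable {b : ℕ} {V : Fin b → ℤ → Type} [∀ j k, AddCommGroup (V j k)] [∀ j k, Module ℚ (V j k)]

lemma Fin1.pi_iff : Fin1 (fun k => ∀ j, V j k) ↔ ∀ j, Fin1 (V j) := by
  constructor
  · intro h j
    refine ⟨fun k => ?_, h.2.subset fun k hk hs => hk ?_⟩
    · have := h.1 k
      exact Module.Finite.of_surjective (LinearMap.proj (R := ℚ) (φ := fun j => V j k) j)
        (LinearMap.proj_surjective j)
    · exact (LinearMap.proj_surjective (R := ℚ) (φ := fun j => V j k) j).subsingleton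
  · intro h
    refine ⟨fun k => ?_, (Set.finite_iUnion fun j => (h j).2).subset fun k hk => ?_⟩
    · have := fun j => (h j).1 k
      infer_instance
    · by_contra h3
      rw [Set.mem_iUnion, not_exists] at h3
      have : ∀ j, Subsingleton (V j k) := fun j => not_not.mp (h3 j)
      exact hk (inferInstanceAs (Subsingleton (∀ j, V j k)))

lemma chi1_pi (h : ∀ j, Fin1 (V j)) : chi1 (fun k => ∀ j, V j k) = ∑ j, chi1 (V j) := by
  have h1 : chi1 (fun k => ∀ j, V j k) =
      ∑ᶠ k : ℤ, ∑ j : Fin b, (k.negOnePow : ℤ) * (Module.finrank ℚ (V j k) : ℤ) := by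
    refine finsum_congr fun k => ?_
    have := fun j => (h j).1 k
    rw [Module.finrank_pi_fintype, Nat.cast_sum, Finset.mul_sum]
  rw [h1, finsum_sum_comm _ _ fun j _ => chi1_support (h j)]
  rfl

end

end Pool.Agent.Run7.h384.BU
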