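import Pool.Agent.Run7.h384.BU.Defs

/-!
# Orders of meromorphic continuations
-/

set_option autoImplicit false

open Filter Topology

namespace Pool.Agent.Run7.h384.BU

variable {f g : ℂ → ℂ} {n v w : ℤ}

/-- open right half-plane -/
def half (a : ℝ) : Set ℂ := {s | a < s.re}

lemma half_mono {a b : ℝ} (h : a ≤ b) : half b ⊆ half a := fun _ hs => lt_of_le_of_lt h hs

lemma half_preconnected (a : ℝ) : IsPreconnected (half a) :=
  (convex_halfSpace_re_gt a).isPreconnected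

lemma half_open (a : ℝ) : IsOpen (half a) := isOpen_lt continuous_const Complex.continuous_re

lemma Ord.congr (h : Ord f n v) (hg : ∃ σ : ℝ, ∀ s : ℂ, σ < s.re → g s = f s) : Ord g n v := by
  obtain ⟨F, ε, hε, hF, ⟨σ, hσ⟩, ho⟩ := h
  obtain ⟨τ, hτ⟩ := hg
  exact ⟨F, ε, hε, hF, ⟨max σ τ, fun s hs => by
    rw [hσ s (lt_of_le_of_lt (le_max_left _ _) hs), hτ s (lt_of_le_of_lt (le_max_right _ _) hs)]⟩, ho⟩

lemma Ord.mul (hf : Ord f n v) (hg : Ord g n w) : Ord (fun s => f s * g s) n (v + w) := by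
  obtain ⟨F, ε, hε, hF, ⟨σ, hσ⟩, ho⟩ := hf
  obtain ⟨G, δ, hδ, hG, ⟨τ, hτ⟩, hp⟩ := hg
  have h1 : (n : ℂ) ∈ {s : ℂ | (n : ℝ) - ε < s.re} := by simp [hε]
  have h2 : (n : ℂ) ∈ {s : ℂ | (n : ℝ) - δ < s.re} := by simp [hδ]
  refine ⟨fun s => F s * G s, min ε δ, lt_min hε hδ, fun s hs => ?_, ⟨max σ τ, fun s hs => ?_⟩, ?_⟩
  · have hs1 : s ∈ {s : ℂ | (n : ℝ) - ε < s.re} := by
      have := min_le_left ε δ
      simp only [Set.mem_ofPred_eq] at hs ⊢
      linarith
    have hs2 : s ∈ {s : ℂ | (n : ℝ) - δ < s.re} := by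
      have := min_le_right ε δ
      simp only [Set.mem_ofPred_eq] at hs ⊢
      linarith
    exact (hF s hs1).mul (hG s hs2)
  · show F s * G s = f s * g s
    rw [hσ s (lt_of_le_of_lt (le_max_left _ _) hs), hτ s (lt_of_le_of_lt (le_max_right _ _) hs)]
  · have := meromorphicOrderAt_mul (hF _ h1) (hG _ h2)
    rw [show (fun s => F s * G s) = F * G from rfl, this, ho, hp]
    rfl

lemma Ord.inv (hf : Ord f n v) : Ord (fun s => (f s)⁻¹) n (-v) := by
  obtain ⟨F, ε, hε, hF, ⟨σ, hσ⟩, ho⟩ := hf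
  refine ⟨fun s => (F s)⁻¹, ε, hε, fun s hs => (hF s hs).inv, ⟨σ, fun s hs => by
    show (F s)⁻¹ = (f s)⁻¹
    rw [hσ s hs]⟩, ?_⟩
  rw [show (fun s => (F s)⁻¹) = F⁻¹ from rfl, meromorphicOrderAt_inv, ho]
  rfl

lemma Ord.one : Ord (fun _ => 1) n 0 := by
  refine ⟨fun _ => 1, 1, one_pos, fun s _ => MeromorphicAt.const 1 s, ⟨0, fun _ _ => rfl⟩, ?_⟩
  classical
  rw [meromorphicOrderAt_const]
  simp

lemma Ord.prod {ι : Type} (S : Finset ι) (f : ι → ℂ → ℂ) (v : ι → ℤ)
    (h : ∀ i ∈ S, Ord (f i) n (v i)) : Ord (fun s => ∏ i ∈ S, f i s) n (∑ i ∈ S, v i) := by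
  classical
  induction S using Finset.induction_on with
  | empty => simpa using Ord.one
  | insert a S ha ih =>
    have h1 := (h a (Finset.mem_insert_self a S)).mul
      (ih fun i hi => h i (Finset.mem_insert_of_mem hi))
    rw [Finset.sum_insert ha]
    refine h1.congr ⟨0, fun s _ => ?_⟩
    rw [Finset.prod_insert ha]

lemma Ord.shift {t : ℤ} (h : Ord f (n - t) v) : Ord (fun s => f (s - t)) n v := by
  obtain ⟨F, ε, hε, hF, ⟨σ, hσ⟩, ho⟩ := h
  refine ⟨fun s => F (s - t), ε, hε, fun s hs => ?_, ⟨σ + t, fun s hs => ?_⟩, ?_⟩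
  · rw [meromorphicAt_fun_comp_sub_const_iff_meromorphicAt]
    apply hF
    simp only [Set.mem_ofPred_eq, Complex.sub_re, Complex.intCast_re] at hs ⊢
    push_cast
    linarith
  · exact hσ _ (by simp only [Complex.sub_re, Complex.intCast_re]; linarith)
  · have h1 := meromorphicOrderAt_comp_sub_const_eq_meromorphicOrderAt (x := (n : ℂ)) (c := (t : ℂ))
      (f := F)
    rw [show (fun s => F (s - t)) = (fun s => F (s - (t : ℂ))) from rfl]
    rw [show ((n : ℂ) - (t : ℂ)) = ((n - t : ℤ) : ℂ) by push_cast; ring] at h1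
    rw [← ho]
    exact h1

/-- Two meromorphic functions on a half-plane which agree for large real parts agree near every point. -/
lemma agree {F G : ℂ → ℂ} {a σ : ℝ} (hF : MeromorphicOn F (half a)) (hG : MeromorphicOn G (half a))
    (h : ∀ s : ℂ, σ < s.re → F s = G s) {x : ℂ} (hx : a < x.re) :
    meromorphicOrderAt F x = meromorphicOrderAt G x := by
  have hD : MeromorphicOn (F - G) (half a) := fun s hs => (hF s hs).sub (hG s hs)
  let y : ℂ := ((max a σ + 1 : ℝ) : ℂ)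
  have hy : max a σ < y.re := by simp [y]
  have hy1 : y ∈ half a := lt_of_le_of_lt (le_max_left _ _) hy
  have hyt : meromorphicOrderAt (F - G) y = ⊤ := by
    rw [meromorphicOrderAt_eq_top_iff]
    have h1 : ∀ᶠ s in 𝓝 y, (F - G) s = 0 := by
      filter_upwards [(half_open (max a σ)).mem_nhds hy] with s hs
      rw [Pi.sub_apply, h s (lt_of_le_of_lt (le_max_right _ _) hs), sub_self]
    exact h1.filter_mono nhdsWithin_le_nhds
  have hxt : meromorphicOrderAt (F - G) x = ⊤ := by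
    by_contra hne
    exact hD.meromorphicOrderAt_ne_top_of_isPreconnected (half_preconnected a) hx hy1 hne hyt
  rw [meromorphicOrderAt_eq_top_iff] at hxt
  refine meromorphicOrderAt_congr ?_
  filter_upwards [hxt] with s hs
  exact sub_eq_zero.mp hs

lemma Ord.unique (hf : Ord f n v) (hg : Ord f n w) : v = w := by
  obtain ⟨F, ε, hε, hF, ⟨σ, hσ⟩, ho⟩ := hf
  obtain ⟨G, δ, hδ, hG, ⟨τ, hτ⟩, hp⟩ := hg
  have h1 : MeromorphicOn F (half (n - min ε δ)) := fun s hs => hF s (by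
    have := min_le_left ε δ
    simp only [half, Set.mem_ofPred_eq] at hs ⊢
    linarith)
  have h2 : MeromorphicOn G (half (n - min ε δ)) := fun s hs => hG s (by
    have := min_le_right ε δ
    simp only [half, Set.mem_ofPred_eq] at hs ⊢
    linarith)
  have h3 := agree (x := (n : ℂ)) h1 h2 (σ := max σ τ) (fun s hs => by
    rw [hσ s (lt_of_le_of_lt (le_max_left _ _) hs), hτ s (lt_of_le_of_lt (le_max_right _ _) hs)])
    (by simp [hε, hδ])
  rw [ho, hp] at h3
  exact_mod_cast h3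

/-- If `f` is not zero for large real parts, a continuation beyond `n` has finite orders at all `m ≥ n`. -/
lemma Ord.mono (hf : Ord f n v) (h0 : ∃ σ : ℝ, ∀ s : ℂ, σ < s.re → f s ≠ 0) {m : ℤ} (hm : n ≤ m) :
    ∃ u, Ord f m u := by
  obtain ⟨F, ε, hε, hF, ⟨σ, hσ⟩, ho⟩ := hf
  obtain ⟨τ, hτ⟩ := h0
  have hnm : (n : ℝ) ≤ m := by exact_mod_cast hm
  have hF' : MeromorphicOn F (half (n - ε)) := hF
  have hm1 : (m : ℂ) ∈ half (n - ε) := by
    simp only [half, Set.mem_ofPred_eq, Complex.intCast_re]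
    linarith
  let y : ℂ := ((max (max (n : ℝ) σ) τ + 1 : ℝ) : ℂ)
  have hy : max (max (n : ℝ) σ) τ < y.re := by simp [y]
  have hy1 : y ∈ half (n - ε) := by
    have : (n : ℝ) < y.re := lt_of_le_of_lt ((le_max_left _ _).trans (le_max_left _ _)) hy
    simp only [half, Set.mem_ofPred_eq]
    linarith
  have hyt : meromorphicOrderAt F y ≠ ⊤ := by
    intro h
    rw [meromorphicOrderAt_eq_top_iff] at h
    have h1 : ∀ᶠ s in 𝓝[≠] y, F s ≠ 0 := by
      have h2 : ∀ᶠ s in 𝓝 y, F s ≠ 0 := by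
        filter_upwards [(half_open (max (max (n : ℝ) σ) τ)).mem_nhds hy] with s hs
        rw [hσ s (lt_of_le_of_lt ((le_max_right _ _).trans (le_max_left _ _)) hs)]
        exact hτ s (lt_of_le_of_lt (le_max_right _ _) hs)
      exact h2.filter_mono nhdsWithin_le_nhds
    obtain ⟨s, hs1, hs2⟩ := (h.and h1).exists
    exact hs2 hs1
  have hmt : meromorphicOrderAt F (m : ℂ) ≠ ⊤ :=
    hF'.meromorphicOrderAt_ne_top_of_isPreconnected (half_preconnected _) hy1 hm1 hyt
  obtain ⟨u, hu⟩ := WithTop.ne_top_iff_exists.mp hmt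
  refine ⟨u, F, ε, hε, fun s hs => hF s ?_, ⟨σ, hσ⟩, hu.symm⟩
  simp only [Set.mem_ofPred_eq] at hs ⊢
  linarith

end Pool.Agent.Run7.h384.BU
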