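import Mathlib

/-!
# Soulé's conjecture for blow-ups: definitions
-/

set_option autoImplicit false

open CategoryTheory CategoryTheory.Limits AlgebraicGeometry

namespace Pool.Agent.Run7.h384.BU

attribute [local instance] MvPolynomial.gradedAlgebra

/-- The zeta function of `X`: the Euler product `∏ (1 - N(x)^{-s})⁻¹` over the closed points `x`. -/
noncomputable def zeta (X : Scheme.{0}) (s : ℂ) : ℂ :=
  ∏' x : {x : X // IsClosed ({x} : Set X)}, (1 - ((Nat.card (X.residueField x.1) : ℂ) ^ (-s)))⁻¹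

/-- The projective space of relative dimension `N` over the integers. -/
noncomputable def PS (N : ℕ) : Scheme.{0} :=
  Proj (MvPolynomial.homogeneousSubmodule (Fin (N + 1)) ℤ)

/-- The product `Y × P^r` over the integers. -/
noncomputable def timesPS (Y : Scheme.{0}) (r : ℕ) : Scheme.{0} :=
  pullback (specZIsTerminal.from Y) (specZIsTerminal.from (PS r))

/-- `X` is a regular connected scheme which is projective over the integers. -/
def RegProj (X : Scheme.{0}) : Prop :=
  IsLocallyNoetherian X ∧ (∀ x : X, IsRegularLocalRing (X.presheaf.stalk x)) ∧ ConnectedSpace X ∧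
    ∃ (N : ℕ) (i : X ⟶ PS N), IsClosedImmersion i

/-- `X` is flat over the integers. -/
def FlatZ (X : Scheme.{0}) : Prop := Flat (specZIsTerminal.from X)

/-- The closed subscheme `j : E ⟶ T` is an effective Cartier divisor: locally on `T` its ideal is
generated by a nonzerodivisor. -/
def IsCartier {E T : Scheme.{0}} (j : E ⟶ T) : Prop :=
  ∀ t : T, ∃ (U : T.affineOpens) (f : Γ(T, U.1)), t ∈ U.1 ∧ f ∈ nonZeroDivisors Γ(T, U.1) ∧
    RingHom.ker (j.app U.1).hom = Ideal.span {f}

/-- `π : B ⟶ X` is the blow-up of `X` in the closed subscheme `i : Y ⟶ X`: the inverse image of `Y` in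
`B` is an effective Cartier divisor, and `π` is universal with this property. -/
def IsBlowUp {Y X B : Scheme.{0}} (i : Y ⟶ X) (π : B ⟶ X) : Prop :=
  IsCartier (pullback.snd i π) ∧ ∀ (T : Scheme.{0}) (g : T ⟶ X), IsCartier (pullback.snd i g) →
    ∃! h : T ⟶ B, h ≫ π = g

/-- The function `f`, given for large real parts, extends to a meromorphic function on a half-plane
which contains the integer `n`, and this extension has the order `v` at `n`. -/
def Ord (f : ℂ → ℂ) (n v : ℤ) : Prop :=
  ∃ (F : ℂ → ℂ) (ε : ℝ), 0 < ε ∧ MeromorphicOn F {s | (n : ℝ) - ε < s.re} ∧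
    (∃ σ : ℝ, ∀ s : ℂ, σ < s.re → F s = f s) ∧ meromorphicOrderAt F (n : ℂ) = ((v : ℤ) : WithTop ℤ)

/-- `P^N` is regular, connected, projective and flat over the integers, of dimension `N + 1`, and it is
isomorphic to a closed subscheme of `P^(N+1)`. -/
def ProjectiveSpaces : Prop :=
  ∀ N : ℕ, RegProj (PS N) ∧ FlatZ (PS N) ∧
    topologicalKrullDim (PS N) = ((N + 1 : ℕ) : WithBot ℕ∞) ∧
    ∃ i : PS N ⟶ PS (N + 1), IsClosedImmersion i

/-- The Euler product of `X` is not zero for large real parts. -/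
def EulerNonzero : Prop :=
  ∀ X : Scheme.{0}, RegProj X → ∃ σ : ℝ, ∀ s : ℂ, σ < s.re → zeta X s ≠ 0

/-- Rational vector spaces `A m k X` for schemes `X`. -/
structure Chow where
  A : ℤ → ℤ → Scheme.{0} → Type
  grp : ∀ (m k : ℤ) (X : Scheme.{0}), AddCommGroup (A m k X)
  mod : ∀ (m k : ℤ) (X : Scheme.{0}), Module ℚ (A m k X)

attribute [instance] Chow.grp Chow.mod

namespace Chow

variable (C : Chow)

/-- All spaces `A m k X` are finite-dimensional, and all but finitely many of them are zero. -/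
def FinRank (m : ℤ) (X : Scheme.{0}) : Prop :=
  (∀ k, Module.Finite ℚ (C.A m k X)) ∧ {k | ¬ Subsingleton (C.A m k X)}.Finite

/-- The alternating sum `∑ (-1)^k dim A m k X`. -/
noncomputable def chi (m : ℤ) (X : Scheme.{0}) : ℤ :=
  ∑ᶠ k : ℤ, (k.negOnePow : ℤ) * (Module.finrank ℚ (C.A m k X) : ℤ)

/-- The conjecture of Soulé at `s = m` for `X`: the spaces `A m k X` are finite-dimensional and almost all
zero, the zeta function of `X` extends to a meromorphic function on a half-plane which contains `m`, and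
its order at `s = m` is `∑ (-1)^(k + 1) dim A m k X`. -/
def Soule (m : ℤ) (X : Scheme.{0}) : Prop := C.FinRank m X ∧ Ord (zeta X) m (-C.chi m X)

/-- The projective bundle formula: `CH_m(Y × P^r, k) = ⨁_{j ≤ r} CH_(m - j)(Y, k)` and
`ζ(Y × P^r, s) = ∏_{j ≤ r} ζ(Y, s - j)`. -/
def BundleFormula : Prop :=
  ∀ (Y : Scheme.{0}) (r : ℕ), RegProj Y → RegProj (timesPS Y r) ∧
    topologicalKrullDim (timesPS Y r) = topologicalKrullDim Y + ((r : ℕ) : WithBot ℕ∞) ∧
    (∀ m k : ℤ, Nonempty (C.A m k (timesPS Y r) ≃ₗ[ℚ] ∀ j : Fin (r + 1), C.A (m - (j : ℕ)) k Y)) ∧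
    ∃ σ : ℝ, ∀ s : ℂ, σ < s.re → zeta (timesPS Y r) s = ∏ j : Fin (r + 1), zeta Y (s - (j : ℕ))

/-- `B` satisfies the blow-up formula for the blow-up of `X` in the centre `Y` of codimension `b + 1`:
`CH_m(B, k) = CH_m(X, k) ⊕ ⨁_{1 ≤ j ≤ b} CH_(m - j)(Y, k)` and
`ζ(B, s) = ζ(X, s) ∏_{1 ≤ j ≤ b} ζ(Y, s - j)`. -/
def Formula (X Y B : Scheme.{0}) (b : ℕ) : Prop :=
  (∀ m k : ℤ, Nonempty (C.A m k B ≃ₗ[ℚ]
    C.A m k X × (∀ j : Fin b, C.A (m - ((j : ℕ) + 1)) k Y))) ∧
  ∃ σ : ℝ, ∀ s : ℂ, σ < s.re → zeta B s = zeta X s * ∏ j : Fin b, zeta Y (s - ((j : ℕ) + 1))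

/-- The blow-up of a regular scheme `X` in a regular centre `Y` of codimension `b + 1 ≥ 2` exists, is
regular, connected and projective, and satisfies the blow-up formula; it is flat if `X` is flat. -/
def BlowUpFormula : Prop :=
  ∀ (X Y : Scheme.{0}) (b : ℕ) (i : Y ⟶ X), RegProj X → RegProj Y → IsClosedImmersion i →
    1 ≤ b → topologicalKrullDim X = topologicalKrullDim Y + ((b + 1 : ℕ) : WithBot ℕ∞) →
    (∃ (B : Scheme.{0}) (π : B ⟶ X), IsBlowUp i π) ∧
    ∀ (B : Scheme.{0}) (π : B ⟶ X), IsBlowUp i π → RegProj B ∧ (FlatZ X → FlatZ B) ∧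
      C.Formula X Y B b

/-- Known properties of the rational higher Chow groups `A m k X = CH_m(X, k) ⊗ ℚ` (cycles of dimension
`m + k` on `X × Δ^k`), of zeta functions and of regular projective schemes. -/
structure Known : Prop where
  /-- `P^N` is regular, connected, flat, of dimension `N + 1` and a closed subscheme of `P^(N+1)` -/
  space : ProjectiveSpaces
  /-- the conjecture is true for projective spaces (Riemann, Borel) -/
  borel : ∀ N : ℕ, C.Soule 0 (PS N)
  /-- the Euler product converges absolutely for large real parts, so it is not zero there -/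
  euler : EulerNonzero
  /-- the projective bundle formula -/
  bundle : C.BundleFormula
  /-- the blow-up formula -/
  blowUp : C.BlowUpFormula

end Chow

end Pool.Agent.Run7.h384.BU
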