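import Pool.Agent.Run7.h384.BU.LMain

/-!
# Finite rank of higher Chow groups and blow-ups: definitions
-/

set_option autoImplicit false

open CategoryTheory CategoryTheory.Limits AlgebraicGeometry

namespace Pool.Agent.Run7.h384.BU

/-- `X` is a scheme of finite type over the integers. -/
def FinType (X : Scheme.{0}) : Prop :=
  LocallyOfFiniteType (specZIsTerminal.from X) ∧ QuasiCompact (specZIsTerminal.from X)

/-- `B` is the blow-up of `X` in the centre `Y` of codimension `b + 1 ≥ 2`; the schemes `X` and `Y` are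
regular, connected and projective over the integers. -/
def BlowUp (X Y B : Scheme.{0}) (b : ℕ) : Prop :=
  RegProj X ∧ RegProj Y ∧ 1 ≤ b ∧
    topologicalKrullDim X = topologicalKrullDim Y + ((b + 1 : ℕ) : WithBot ℕ∞) ∧
    ∃ (i : Y ⟶ X) (π : B ⟶ X), IsClosedImmersion i ∧ IsBlowUp i π

namespace Chow

variable (C : Chow)

/-- The space `A m k X` (that is, `CH_m(X, k) ⊗ ℚ`) is finite-dimensional. -/
def FD (m k : ℤ) (X : Scheme.{0}) : Prop := Module.Finite ℚ (C.A m k X)

/-- `CH_m(B, k) = CH_m(X, k) ⊕ ⨁_{1 ≤ j ≤ b} CH_(m - j)(Y, k)` rationally. -/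
def Groups (X Y B : Scheme.{0}) (b : ℕ) : Prop :=
  ∀ m k : ℤ, Nonempty (C.A m k B ≃ₗ[ℚ]
    C.A m k X × (∀ j : Fin b, C.A (m - ((j : ℕ) + 1)) k Y))

/-- The blow-up of a regular scheme `X` in a regular centre `Y` of codimension `b + 1 ≥ 2` exists, is
regular, connected and projective, and its groups are given by the blow-up formula. -/
def GroupsOfBlowUp : Prop :=
  ∀ (X Y : Scheme.{0}) (b : ℕ) (i : Y ⟶ X), RegProj X → RegProj Y → IsClosedImmersion i →
    1 ≤ b → topologicalKrullDim X = topologicalKrullDim Y + ((b + 1 : ℕ) : WithBot ℕ∞) →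
    (∃ (B : Scheme.{0}) (π : B ⟶ X), IsBlowUp i π) ∧
    ∀ (B : Scheme.{0}) (π : B ⟶ X), IsBlowUp i π → RegProj B ∧ C.Groups X Y B b

/-- Known properties of the rational higher Chow groups `A m k X = CH_m(X, k) ⊗ ℚ` (cycles of dimension
`m + k` on `X × Δ^k`; for integral `X` of dimension `d` this is `CH^(d - m)(X, k) ⊗ ℚ`). -/
structure KnownFD : Prop where
  /-- `P^N` is regular, connected, flat, of dimension `N + 1` and a closed subscheme of `P^(N+1)` -/
  space : ProjectiveSpaces
  /-- the groups of projective spaces over the integers are finite-dimensional (Quillen, Borel) -/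
  quillen : ∀ (N : ℕ) (m k : ℤ), C.FD m k (PS N)
  /-- there are no cycles of negative codimension -/
  zero : ∀ (X : Scheme.{0}) (D : ℕ) (m k : ℤ), RegProj X →
    topologicalKrullDim X = ((D : ℕ) : WithBot ℕ∞) → D < m → Subsingleton (C.A m k X)
  /-- the blow-up formula -/
  blowUp : C.GroupsOfBlowUp
  /-- projective schemes are of finite type -/
  finType : ∀ X : Scheme.{0}, RegProj X → FinType X
  /-- reduction to regular projective schemes (localization sequence and de Jong's alterations) -/
  deJong : (∀ X : Scheme.{0}, RegProj X → ∀ m k, C.FD m k X) →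
    ∀ X : Scheme.{0}, FinType X → ∀ m k, C.FD m k X

end Chow

end Pool.Agent.Run7.h384.BU
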