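import Pool.Agent.Run7.h384.BU.FDefs

/-!
# Finite rank of higher Chow groups and blow-ups of projective spaces
-/

set_option autoImplicit false

open CategoryTheory CategoryTheory.Limits AlgebraicGeometry

namespace Pool.Agent.Run7.h384.BU

variable {C : Chow}

lemma fd_of_subsingleton {m k : ℤ} {X : Scheme.{0}} (h : Subsingleton (C.A m k X)) : C.FD m k X :=
  inferInstanceAs (Module.Finite ℚ (C.A m k X))

theorem regProj_blowUp (hC : C.KnownFD) {X Y B : Scheme.{0}} {b : ℕ} (h : BlowUp X Y B b) :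
    RegProj B := by
  obtain ⟨hX, hY, hb, hd, i, π, hi, hπ⟩ := h
  exact ((hC.blowUp X Y b i hX hY hi hb hd).2 B π hπ).1

theorem fd_blowUp (hC : C.KnownFD) {X Y B : Scheme.{0}} {b : ℕ} (h : BlowUp X Y B b) (m k : ℤ) :
    C.FD m k B ↔ C.FD m k X ∧ ∀ j : Fin b, C.FD (m - ((j : ℕ) + 1)) k Y := by
  obtain ⟨hX, hY, hb, hd, i, π, hi, hπ⟩ := h
  obtain ⟨e⟩ := ((hC.blowUp X Y b i hX hY hi hb hd).2 B π hπ).2 m k
  constructor
  · intro h
    have h1 : Module.Finite ℚ (C.A m k B) := h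
    have h2 : Module.Finite ℚ (C.A m k X × (∀ j : Fin b, C.A (m - ((j : ℕ) + 1)) k Y)) :=
      Module.Finite.equiv e
    have h3 : Module.Finite ℚ (∀ j : Fin b, C.A (m - ((j : ℕ) + 1)) k Y) :=
      Module.Finite.of_surjective
        (LinearMap.snd ℚ (C.A m k X) (∀ j : Fin b, C.A (m - ((j : ℕ) + 1)) k Y))
        LinearMap.snd_surjective
    refine ⟨?_, fun j => ?_⟩
    · show Module.Finite ℚ (C.A m k X)
      exact Module.Finite.of_surjective
        (LinearMap.fst ℚ (C.A m k X) (∀ j : Fin b, C.A (m - ((j : ℕ) + 1)) k Y))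
        LinearMap.fst_surjective
    · show Module.Finite ℚ (C.A (m - ((j : ℕ) + 1)) k Y)
      exact Module.Finite.of_surjective
        (LinearMap.proj (R := ℚ) (φ := fun j : Fin b => C.A (m - ((j : ℕ) + 1)) k Y) j)
        (LinearMap.proj_surjective j)
  · rintro ⟨h1, h2⟩
    have h1' : Module.Finite ℚ (C.A m k X) := h1
    have h2' : ∀ j : Fin b, Module.Finite ℚ (C.A (m - ((j : ℕ) + 1)) k Y) := h2
    show Module.Finite ℚ (C.A m k B)
    exact Module.Finite.equiv e.symm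

/-- centres of projective spaces with large codimension -/
lemma exists_blowUp (hC : C.KnownFD) {Y : Scheme.{0}} (hY : RegProj Y) :
    ∃ (e N0 : ℕ), topologicalKrullDim Y = ((e : ℕ) : WithBot ℕ∞) ∧ ∀ b : ℕ, 1 ≤ b → N0 ≤ e + b →
      ∃ B : Scheme.{0}, BlowUp (PS (e + b)) Y B b := by
  obtain ⟨N0, hN0⟩ := embeds1 hC.space hY
  obtain ⟨e, he⟩ := dim_nat1 hC.space hY
  refine ⟨e, N0, he, fun b hb hN => ?_⟩
  obtain ⟨i, hi⟩ := hN0 (e + b) hN
  have hdim : topologicalKrullDim (PS (e + b)) =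
      topologicalKrullDim Y + ((b + 1 : ℕ) : WithBot ℕ∞) := by
    rw [(hC.space _).2.2.1, he]
    push_cast
    ring
  obtain ⟨B, π, hπ⟩ := (hC.blowUp _ Y b i (hC.space _).1 hY hi hb hdim).1
  exact ⟨B, (hC.space _).1, hY, hb, hdim, i, π, hi, hπ⟩

theorem fd_down (hC : C.KnownFD) {m k : ℤ}
    (h : ∀ (N b : ℕ) (Y B : Scheme.{0}), BlowUp (PS N) Y B b → C.FD m k B) {Y : Scheme.{0}}
    (hY : RegProj Y) {l : ℤ} (hl : l < m) : C.FD l k Y := by
  obtain ⟨e, N0, -, hB⟩ := exists_blowUp hC hY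
  obtain ⟨j, hj⟩ : ∃ j : ℕ, m = l + (j + 1) := ⟨(m - l - 1).toNat, by omega⟩
  obtain ⟨B, hB⟩ := hB (N0 + j + 1) (by omega) (by omega)
  have h1 := ((fd_blowUp hC hB m k).mp (h _ _ Y B hB)).2 ⟨j, by omega⟩
  have h2 : m - ((((⟨j, by omega⟩ : Fin (N0 + j + 1)) : ℕ) : ℤ) + 1) = l := by
    rw [hj]
    ring
  rw [← h2]
  exact h1

theorem fd_tfae (hC : C.KnownFD) (m k : ℤ) :
    [(∀ (N b : ℕ) (Y B : Scheme.{0}), BlowUp (PS N) Y B b → C.FD m k B),
      (∀ Y : Scheme.{0}, RegProj Y → C.FD (m - 1) k Y),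
      (∀ Y : Scheme.{0}, RegProj Y → ∀ l < m, C.FD l k Y)].TFAE := by
  tfae_have 1 → 3 := fun h Y hY l hl => fd_down hC h hY hl
  tfae_have 3 → 2 := fun h Y hY => h Y hY _ (by omega)
  tfae_have 2 → 3 := by
    intro h Y hY l hl
    rcases eq_or_lt_of_le (show l ≤ m - 1 by omega) with h1 | h1
    · rw [h1]
      exact h Y hY
    · exact fd_down hC (fun N b Y B hB => h B (regProj_blowUp hC hB)) hY h1
  tfae_have 3 → 1 := fun h N b Y B hB =>
    (fd_blowUp hC hB m k).mpr ⟨hC.quillen _ _ _, fun j => h Y hB.2.1 _ (by omega)⟩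
  tfae_finish

theorem fd_middle (hC : C.KnownFD) {Y B : Scheme.{0}} {n b e : ℕ} (k : ℤ)
    (he : topologicalKrullDim Y = ((e : ℕ) : WithBot ℕ∞)) (hn : e < n)
    (h : BlowUp (PS (2 * n - 1)) Y B b) :
    C.FD n k B ↔ ∀ r : ℕ, r < n → C.FD ((e : ℤ) - r) k Y := by
  have hb : 2 * n = e + (b + 1) := by
    have h1 := h.2.2.2.1
    rw [(hC.space _).2.2.1, he] at h1
    have h2 : 2 * n - 1 + 1 = e + (b + 1) := by exact_mod_cast h1
    omega
  rw [fd_blowUp hC h]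
  constructor
  · rintro ⟨-, h1⟩ r hr
    have h2 := h1 ⟨n - e + r - 1, by omega⟩
    have h3 : (n : ℤ) - ((((⟨n - e + r - 1, by omega⟩ : Fin b) : ℕ) : ℤ) + 1) = (e : ℤ) - r := by
      show (n : ℤ) - (((n - e + r - 1 : ℕ) : ℤ) + 1) = (e : ℤ) - r
      omega
    rw [← h3]
    exact h2
  · intro h1
    refine ⟨hC.quillen _ _ _, fun j => ?_⟩
    have hj := j.2
    by_cases hm : (e : ℤ) < (n : ℤ) - ((j : ℕ) + 1)
    · exact fd_of_subsingleton (hC.zero Y e _ k h.2.1 he hm)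
    · have h2 := h1 (e + (j + 1) - n) (by omega)
      have h3 : (e : ℤ) - ((e + ((j : ℕ) + 1) - n : ℕ) : ℤ) = (n : ℤ) - ((j : ℕ) + 1) := by omega
      rw [← h3]
      exact h2

theorem fd_all (hC : C.KnownFD) (T : Set ℕ) (hT : T.Infinite) (k : ℤ) :
    (∀ X : Scheme.{0}, RegProj X → ∀ m : ℤ, C.FD m k X) ↔
      ∀ n ∈ T, ∀ (Y B : Scheme.{0}) (b : ℕ), BlowUp (PS (2 * n - 1)) Y B b → C.FD n k B := by
  constructor
  · intro h n _ Y B b hB
    exact h B (regProj_blowUp hC hB) n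
  · intro h X hX m
    obtain ⟨e, N0, he, hB⟩ := exists_blowUp hC hX
    by_cases hm : (e : ℤ) < m
    · exact fd_of_subsingleton (hC.zero X e m k hX he hm)
    · obtain ⟨r, hr⟩ : ∃ r : ℕ, m = (e : ℤ) - r := ⟨(e - m).toNat, by omega⟩
      obtain ⟨n, hnT, hn⟩ := hT.exists_gt (max e (max N0 r))
      have h1 : e < n := (le_max_left _ _).trans_lt hn
      have h2 : N0 < n := ((le_max_left _ _).trans (le_max_right _ _)).trans_lt hn
      have h3 : r < n := ((le_max_right _ _).trans (le_max_right _ _)).trans_lt hn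
      obtain ⟨b, hb⟩ : ∃ b : ℕ, 2 * n - 1 = e + b := ⟨2 * n - 1 - e, by omega⟩
      obtain ⟨B, hB'⟩ := hB b (by omega) (by omega)
      rw [← hb] at hB'
      rw [hr]
      exact (fd_middle hC k he h1 hB').mp (h n hnT X B b hB') r h3

theorem fd_finType (hC : C.KnownFD) (T : Set ℕ) (hT : T.Infinite) :
    (∀ X : Scheme.{0}, FinType X → ∀ m k : ℤ, C.FD m k X) ↔
      ∀ n ∈ T, ∀ (Y B : Scheme.{0}) (b : ℕ), BlowUp (PS (2 * n - 1)) Y B b → ∀ k : ℤ, C.FD n k B := by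
  constructor
  · intro h n _ Y B b hB k
    exact h B (hC.finType B (regProj_blowUp hC hB)) n k
  · intro h
    exact hC.deJong fun X hX m k =>
      (fd_all hC T hT k).mpr (fun n hn Y B b hB => h n hn Y B b hB k) X hX m

end Pool.Agent.Run7.h384.BU
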