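import Pool.Agent.Run7.h384.BU.Main

/-!
# Invariance under blow-ups
-/

set_option autoImplicit false

open CategoryTheory CategoryTheory.Limits AlgebraicGeometry Finset

namespace Pool.Agent.Run7.h384.BU

/-- `B` is the blow-up of `X` in a regular connected centre `Y` of codimension at least `2`; all three
schemes are projective over the integers. -/
def BlowUpIn (X Y B : Scheme.{0}) : Prop :=
  RegProj X ∧ RegProj Y ∧ ∃ (i : Y ⟶ X) (π : B ⟶ X), IsClosedImmersion i ∧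
    topologicalKrullDim Y + 2 ≤ topologicalKrullDim X ∧ IsBlowUp i π

/-- `X` and `X'` are connected by a chain of blow-ups and blow-downs in regular centres. -/
def Linked : Scheme.{0} → Scheme.{0} → Prop :=
  Relation.EqvGen fun X B => ∃ Y, BlowUpIn X Y B

variable {C : Chow}

lemma codim_nat (hC : C.Known) {X Y : Scheme.{0}} (hX : RegProj X) (hY : RegProj Y)
    (h : topologicalKrullDim Y + 2 ≤ topologicalKrullDim X) : ∃ b : ℕ, 1 ≤ b ∧
      topologicalKrullDim X = topologicalKrullDim Y + ((b + 1 : ℕ) : WithBot ℕ∞) := by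
  obtain ⟨e, he⟩ := dim_nat C hC hY
  obtain ⟨d, hd⟩ := dim_nat C hC hX
  rw [he, hd] at h ⊢
  have hd' : e + 2 ≤ d := by exact_mod_cast h
  obtain ⟨b, hb⟩ : ∃ b : ℕ, d = e + (b + 1) := ⟨d - e - 1, by omega⟩
  refine ⟨b, by omega, ?_⟩
  rw [hb]
  push_cast
  ring

theorem soule_blowUp (hC : C.Known) {X Y B : Scheme.{0}} (h : BlowUpIn X Y B) (n : ℤ)
    (hn : ∀ m < n, C.Soule m Y) : C.Soule n X ↔ C.Soule n B := by
  obtain ⟨hX, hY, i, π, hi, hd, hπ⟩ := h
  obtain ⟨b, hb, hdim⟩ := codim_nat hC hX hY hd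
  obtain ⟨-, -, e, σ, hσ⟩ := (hC.blowUp X Y b i hX hY hi hb hdim).2 B π hπ
  have e1 := e n
  have h1 : ∀ j : Fin b, Fin1 (fun k => C.A (n - ((j : ℕ) + 1)) k Y) := fun j =>
    (hn (n - ((j : ℕ) + 1)) (by omega)).1
  have h2 : Fin1 (fun k => ∀ j : Fin b, C.A (n - ((j : ℕ) + 1)) k Y) := Fin1.pi_iff.mpr h1
  have hfin : C.FinRank n B ↔ C.FinRank n X := by
    constructor
    · intro hB
      exact (Fin1.prod_iff.mp (Fin1.iso (fun k => ⟨(e1 k).some⟩) hB)).1
    · intro hX1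
      exact (Fin1.prod_iff.mpr ⟨hX1, h2⟩).iso fun k => ⟨(e1 k).some.symm⟩
  have hchi : C.FinRank n X →
      C.chi n B = C.chi n X + ∑ j : Fin b, C.chi (n - ((j : ℕ) + 1)) Y := by
    intro hX1
    have h3 : C.chi n B =
        chi1 (fun k => C.A n k X × (∀ j : Fin b, C.A (n - ((j : ℕ) + 1)) k Y)) := chi1_iso e1
    rw [h3, chi1_prod hX1 h2, chi1_pi h1]
    rfl
  have o1 : Ord (fun s => ∏ j : Fin b, zeta Y (s - (((j : ℕ) + 1 : ℤ) : ℂ))) n
      (∑ j : Fin b, -C.chi (n - ((j : ℕ) + 1)) Y) := by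
    refine Ord.prod _ _ _ fun j _ => ?_
    exact Ord.shift (hn _ (by omega)).2
  constructor
  · intro hS
    refine ⟨hfin.mpr hS.1, ?_⟩
    rw [hchi hS.1, neg_add, ← Finset.sum_neg_distrib]
    refine (hS.2.mul o1).congr ⟨σ, fun s hs => ?_⟩
    rw [hσ s hs]
    push_cast
    rfl
  · intro hS
    have hX1 := hfin.mp hS.1
    refine ⟨hX1, ?_⟩
    have o2 := hS.2.mul o1.inv
    have hv : -C.chi n B + -(∑ j : Fin b, -C.chi (n - ((j : ℕ) + 1)) Y) = -C.chi n X := by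
      rw [hchi hX1, Finset.sum_neg_distrib]
      ring
    rw [hv] at o2
    obtain ⟨τ, hτ⟩ := hC.euler Y hY
    refine o2.congr ⟨max σ (τ + (b + 1)), fun s hs => ?_⟩
    have hs1 : σ < s.re := lt_of_le_of_lt (le_max_left _ _) hs
    have hs2 : τ + (b + 1) < s.re := lt_of_le_of_lt (le_max_right _ _) hs
    have hne : ∏ j : Fin b, zeta Y (s - (((j : ℕ) + 1 : ℤ) : ℂ)) ≠ 0 := by
      refine Finset.prod_ne_zero_iff.mpr fun j _ => hτ _ ?_
      have hj : ((j : ℕ) : ℝ) < b := by exact_mod_cast j.2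
      simp only [Int.cast_add, Int.cast_natCast, Int.cast_one, Complex.sub_re, Complex.add_re,
        Complex.natCast_re, Complex.one_re]
      linarith
    show zeta X s = zeta B s * (∏ j : Fin b, zeta Y (s - (((j : ℕ) + 1 : ℤ) : ℂ)))⁻¹
    rw [eq_mul_inv_iff_mul_eq₀ hne, hσ s hs1]
    push_cast
    rfl

theorem soule_linked (hC : C.Known) (hn : ∀ Y, RegProj Y → ∀ n : ℤ, n < 0 → C.Soule n Y)
    {X X' : Scheme.{0}} (h : Linked X X') : C.Soule 0 X ↔ C.Soule 0 X' := by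
  induction h with
  | rel X B h =>
    obtain ⟨Y, hY⟩ := h
    exact soule_blowUp hC hY 0 fun m hm => hn Y hY.2.1 m hm
  | refl => exact Iff.rfl
  | symm _ _ _ ih => exact ih.symm
  | trans _ _ _ _ _ ih1 ih2 => exact ih1.trans ih2

lemma blowUpIn_space (hC : C.Known) {N : ℕ} {Y B : Scheme.{0}} (hY : RegProj Y)
    {b : ℕ} {i : Y ⟶ PS N} {π : B ⟶ PS N} (hi : IsClosedImmersion i) (hb : 1 ≤ b)
    (hdim : topologicalKrullDim (PS N) = topologicalKrullDim Y + ((b + 1 : ℕ) : WithBot ℕ∞))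
    (hπ : IsBlowUp i π) : BlowUpIn (PS N) Y B := by
  refine ⟨(hC.space N).1, hY, i, π, hi, ?_, hπ⟩
  rw [hdim]
  refine add_le_add le_rfl ?_
  exact_mod_cast Nat.succ_le_succ hb

/-- **Main theorem**: all negative integers for `Y` and `s = 0` for the blow-ups of projective spaces in
`Y × P^r`. -/
theorem pointwise (hC : C.Known) {Y : Scheme.{0}} (hY : RegProj Y) (g : ℕ → ℕ) :
    (∀ n : ℤ, n < 0 → C.Soule n Y) ↔
      ∀ (r N : ℕ) (B : Scheme.{0}), g r ≤ N → BlowUpIn (PS N) (timesPS Y r) B → C.Soule 0 B := by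
  constructor
  · intro h r N B _ hB
    have hfin : ∀ n < 0, C.FinRank n Y := fun n hn => (h n hn).1
    have hb := bundle_data hC r hY hfin (fun n => -C.chi n Y) fun n hn => (h n hn).2
    refine (soule_blowUp hC hB 0 fun m hm => ?_).mp (hC.borel N)
    obtain ⟨h1, h2, h3⟩ := hb m hm
    refine ⟨h1, ?_⟩
    rw [h2, ← Finset.sum_neg_distrib]
    exact h3
  · intro h
    have hS : ∀ r, HypS C (g r) (timesPS Y r) := by
      intro r N b B i π hN hi hb hdim hπ
      exact h r N B hN (blowUpIn_space hC (hC.bundle Y r hY).1 hi hb hdim hπ)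
    exact orders hC g (fun r => (hS r).hyp) hY (finite_and_order' hC (hS 0) hY)

theorem rational_iff (hC : C.Known) :
    (∀ (N : ℕ) (Y B : Scheme.{0}), BlowUpIn (PS N) Y B → C.Soule 0 B) ↔
      ∀ Y : Scheme.{0}, RegProj Y → ∀ n : ℤ, n < 0 → C.Soule n Y := by
  constructor
  · intro h Y hY
    exact (pointwise hC hY fun _ => 0).mpr fun r N B _ hB => h N (timesPS Y r) B hB
  · intro h N Y B hB
    exact (soule_blowUp hC hB 0 fun m hm => h Y hB.2.1 m hm).mp (hC.borel N)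

/-- Soulé's question as posed: assumptions (i), (ii) imply the formula. -/
theorem posed (hC : C.Known) (h : ∀ X : Scheme.{0}, RegProj X → FlatZ X → C.FinRank 0 X →
    ∀ v : ℤ, Ord (zeta X) 0 v → v = -C.chi 0 X) {Y : Scheme.{0}} (hY : RegProj Y)
    (hf : ∀ n : ℤ, n < 0 → C.FinRank n Y ∧ ∃ v, Ord (zeta Y) n v) :
    ∀ n : ℤ, n < 0 → C.Soule n Y := by
  refine orders hC (fun _ => 0) (fun r => ?_) hY hf
  intro N b B i π _ hi hb hdim hπ hfin u hu
  obtain ⟨rB, fB, -⟩ := (hC.blowUp (PS N) (timesPS Y r) b i (hC.space N).1 (hC.bundle Y r hY).1 hi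
    hb hdim).2 B π hπ
  exact h B rB (fB (hC.space N).2.1) hfin u hu

theorem classes (hC : C.Known) (S : Set Scheme.{0}) (hS : ∀ X ∈ S, RegProj X ∧ FlatZ X)
    (hS2 : ∀ X, RegProj X → FlatZ X → ∃ X' ∈ S, Linked X X') :
    (∀ X, RegProj X → FlatZ X → C.Soule 0 X) ↔
      (∀ (N : ℕ) (Y B : Scheme.{0}), BlowUpIn (PS N) Y B → C.Soule 0 B) ∧ ∀ X ∈ S, C.Soule 0 X := by
  constructor
  · intro h
    refine ⟨?_, fun X hX => h X (hS X hX).1 (hS X hX).2⟩
    rintro N Y B ⟨hX, hY, i, π, hi, hd, hπ⟩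
    obtain ⟨b, hb, hdim⟩ := codim_nat hC hX hY hd
    obtain ⟨rB, fB, -⟩ := (hC.blowUp (PS N) Y b i hX hY hi hb hdim).2 B π hπ
    exact h B rB (fB (hC.space N).2.1)
  · rintro ⟨h1, h2⟩ X hX hf
    obtain ⟨X', hX', hl⟩ := hS2 X hX hf
    exact (soule_linked hC ((rational_iff hC).mp h1) hl).mpr (h2 X' hX')

end Pool.Agent.Run7.h384.BU
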