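import Pool.Agent.Run7.h384.BU.Defs

/-!
# Lifting cycles orthogonally to fibral cycles: definitions
-/

set_option autoImplicit false

open CategoryTheory CategoryTheory.Limits AlgebraicGeometry

namespace Pool.Agent.Run7.h384.BU

/-- Data for schemes `X`, in degrees `i`: abelian groups `H i X`, a property `Fib` of their elements and a
pairing `int` of the elements of `H i X` with those of `H j X` (used for the elements with `Fib` only). -/
structure Arith where
  H : ℤ → Scheme.{0} → Type
  grp : ∀ (i : ℤ) (X : Scheme.{0}), AddCommGroup (H i X)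
  Fib : ∀ {i : ℤ} {X : Scheme.{0}}, H i X → Prop
  int : ∀ {i j : ℤ} {X : Scheme.{0}}, H i X → H j X → ℝ
  fib_zero : ∀ (i : ℤ) (X : Scheme.{0}), Fib (0 : H i X)
  int_zero : ∀ {i j : ℤ} {X : Scheme.{0}} (x : H i X), int x (0 : H j X) = 0
  zero_int : ∀ {i j : ℤ} {X : Scheme.{0}} (y : H j X), int (0 : H i X) y = 0

attribute [instance] Arith.grp

namespace Arith

variable (R : Arith)

/-- The question for `X` in codimension `i`: every element of `H i X` is congruent modulo the fibral
classes to one which is orthogonal to the fibral classes in `H i' X`, `i + i' = dim X`. -/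
def Lifts (i : ℤ) (X : Scheme.{0}) : Prop :=
  ∀ (D : ℕ) (i' : ℤ), topologicalKrullDim X = ((D : ℕ) : WithBot ℕ∞) → i + i' = D →
    ∀ x : R.H i X, ∃ f : R.H i X, R.Fib f ∧ ∀ y : R.H i' X, R.Fib y → R.int (x - f) y = 0

/-- The groups `H i X ⊕ ⨁_{1 ≤ j ≤ b} H (i - j) Y`. -/
abbrev HSum (X Y : Scheme.{0}) (b : ℕ) (i : ℤ) : Type :=
  R.H i X × (∀ j : Fin b, R.H (i - ((j : ℕ) + 1)) Y)

/-- All components are fibral. -/
def IsFibral {X Y : Scheme.{0}} {b : ℕ} {i : ℤ} (u : R.HSum X Y b i) : Prop :=
  R.Fib u.1 ∧ ∀ j : Fin b, R.Fib (u.2 j)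

/-- The pairing `(u_0, v_0) - ∑_{1 ≤ j ≤ b} (u_j, v_(b + 1 - j))`. -/
noncomputable def intSum {X Y : Scheme.{0}} {b : ℕ} {i i' : ℤ} (u : R.HSum X Y b i)
    (v : R.HSum X Y b i') : ℝ :=
  R.int u.1 v.1 - ∑ j : Fin b, R.int (u.2 j) (v.2 (Fin.rev j))

/-- `e` is an isomorphism of groups. -/
def IsIsom {X Y B : Scheme.{0}} {b : ℕ} {i : ℤ} (e : R.H i B → R.HSum X Y b i) : Prop :=
  Function.Bijective e ∧ ∀ x x', (e (x - x')).1 = (e x).1 - (e x').1 ∧
    ∀ j : Fin b, (e (x - x')).2 j = (e x).2 j - (e x').2 j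

/-- The decomposition of the groups of the blow-up `B` of `X` in the centre `Y` of codimension `b + 1`
in the complementary degrees `i`, `i'`. -/
def Splits (X Y B : Scheme.{0}) (b : ℕ) (i i' : ℤ) : Prop :=
  ∃ (e : R.H i B → R.HSum X Y b i) (e' : R.H i' B → R.HSum X Y b i'),
    R.IsIsom e ∧ R.IsIsom e' ∧ (∀ x, R.Fib x ↔ R.IsFibral (e x)) ∧
    (∀ y, R.Fib y ↔ R.IsFibral (e' y)) ∧ ∀ x y, R.Fib y → R.int x y = R.intSum (e x) (e' y)

/-- The blow-up of a regular flat scheme `X` in a regular flat centre `Y` of codimension `b + 1 ≥ 2`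
exists, is regular, connected, projective, flat, of the same dimension, and its groups decompose. -/
def BlowUpFormula : Prop :=
  ∀ (X Y : Scheme.{0}) (b : ℕ) (i : Y ⟶ X), RegProj X → FlatZ X → RegProj Y → FlatZ Y →
    IsClosedImmersion i → 1 ≤ b →
    topologicalKrullDim X = topologicalKrullDim Y + ((b + 1 : ℕ) : WithBot ℕ∞) →
    (∃ (B : Scheme.{0}) (π : B ⟶ X), IsBlowUp i π) ∧
    ∀ (B : Scheme.{0}) (π : B ⟶ X), IsBlowUp i π → RegProj B ∧ FlatZ B ∧
      topologicalKrullDim B = topologicalKrullDim X ∧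
      ∀ (D : ℕ) (m m' : ℤ), topologicalKrullDim X = ((D : ℕ) : WithBot ℕ∞) → m + m' = D →
        R.Splits X Y B b m m'

/-- Known properties of the groups `H i X = Ch^i(X)_(ℚ,0)` of cycles of codimension `i` on a regular flat
scheme `X` which are cohomologically trivial on the generic fibre, of the fibral classes (`Fib`) and of
the intersection pairing. -/
structure Known : Prop where
  /-- facts on projective spaces over the integers -/
  space : ProjectiveSpaces
  /-- the statement is true for smooth models, here for projective spaces -/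
  smooth : ∀ (N : ℕ) (i : ℤ), R.Lifts i (PS N)
  /-- there are no cycles of negative codimension or dimension -/
  zero : ∀ (X : Scheme.{0}) (D : ℕ) (i : ℤ), RegProj X → FlatZ X →
    topologicalKrullDim X = ((D : ℕ) : WithBot ℕ∞) → i < 0 ∨ D < i → Subsingleton (R.H i X)
  /-- the blow-up formula -/
  blowUp : R.BlowUpFormula

end Arith

/-- `B` is the blow-up of `X` in the centre `Y` of codimension at least `2`; all three schemes are regular,
connected, projective and flat over the integers. -/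
def FlatBlowUp (X Y B : Scheme.{0}) : Prop :=
  RegProj X ∧ FlatZ X ∧ RegProj Y ∧ FlatZ Y ∧ ∃ (i : Y ⟶ X) (π : B ⟶ X), IsClosedImmersion i ∧
    topologicalKrullDim Y + 2 ≤ topologicalKrullDim X ∧ IsBlowUp i π

end Pool.Agent.Run7.h384.BU
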