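import Pool.Agent.Run7.h384.BU.LDefs

/-!
# Lifting cycles orthogonally to fibral cycles and blow-ups of projective spaces
-/

set_option autoImplicit false

open CategoryTheory CategoryTheory.Limits AlgebraicGeometry

namespace Pool.Agent.Run7.h384.BU

lemma embeds1 {Y : Scheme.{0}} (hP : ProjectiveSpaces) (hY : RegProj Y) :
    ∃ N0 : ℕ, ∀ N ≥ N0, ∃ i : Y ⟶ PS N, IsClosedImmersion i := by
  obtain ⟨_, _, _, N0, i0, hi0⟩ := hY
  refine ⟨N0, fun N hN => ?_⟩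
  induction N, hN using Nat.le_induction with
  | base => exact ⟨i0, hi0⟩
  | succ N hN ih =>
    obtain ⟨i, hi⟩ := ih
    obtain ⟨_, _, _, j, hj⟩ := hP N
    exact ⟨i ≫ j, inferInstance⟩

lemma dim_nat1 {Y : Scheme.{0}} (hP : ProjectiveSpaces) (hY : RegProj Y) :
    ∃ e : ℕ, topologicalKrullDim Y = ((e : ℕ) : WithBot ℕ∞) := by
  obtain ⟨_, _, hc, N, i, hi⟩ := hY
  have h1 : topologicalKrullDim Y ≤ topologicalKrullDim (PS N) :=
    i.isClosedEmbedding.isInducing.topologicalKrullDim_le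
  rw [(hP N).2.2.1] at h1
  have hne : Nonempty Y := inferInstance
  obtain ⟨y⟩ := hne
  have h0 : 0 ≤ topologicalKrullDim Y := by
    have : Nonempty (TopologicalSpace.IrreducibleCloseds Y) :=
      ⟨⟨closure {y}, isIrreducible_singleton.closure, isClosed_closure⟩⟩
    exact Order.krullDim_nonneg
  generalize hd : topologicalKrullDim Y = d at h0 h1
  induction d with
  | bot => simp at h0
  | coe d =>
    induction d with
    | top =>
      exfalso
      have h2 : ((⊤ : ℕ∞) : WithBot ℕ∞) ≤ (((N + 1 : ℕ) : ℕ∞) : WithBot ℕ∞) := h1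
      rw [WithBot.coe_le_coe] at h2
      exact absurd (top_le_iff.mp h2) (ENat.coe_ne_top _)
    | coe e => exact ⟨e, rfl⟩

lemma dim_inj {Y : Scheme.{0}} {d e : ℕ} (hd : topologicalKrullDim Y = ((d : ℕ) : WithBot ℕ∞))
    (he : topologicalKrullDim Y = ((e : ℕ) : WithBot ℕ∞)) : d = e := by
  rw [hd] at he
  exact_mod_cast he

variable {R : Arith}

lemma lifts_splits {X Y B : Scheme.{0}} {b D e : ℕ} {i i' : ℤ} (hD : i + i' = D)
    (hX : topologicalKrullDim X = ((D : ℕ) : WithBot ℕ∞))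
    (hB : topologicalKrullDim B = ((D : ℕ) : WithBot ℕ∞))
    (hY : topologicalKrullDim Y = ((e : ℕ) : WithBot ℕ∞)) (hb : D = e + (b + 1))
    (h : R.Splits X Y B b i i') :
    R.Lifts i B ↔ R.Lifts i X ∧ ∀ j : Fin b, R.Lifts (i - ((j : ℕ) + 1)) Y := by
  obtain ⟨φ, ψ, hφ, hψ, hF, hG, hp⟩ := h
  constructor
  · intro hL
    refine ⟨fun D1 i1 hD1 hi1 a => ?_, fun j D1 i1 hD1 hi1 a => ?_⟩
    · obtain rfl := dim_inj hX hD1
      obtain rfl : i1 = i' := by linarith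
      obtain ⟨x, hx⟩ := hφ.1.2 (a, fun _ => 0)
      obtain ⟨f, hf, hfy⟩ := hL D i1 hB hD x
      refine ⟨(φ f).1, ((hF f).mp hf).1, fun y hy => ?_⟩
      obtain ⟨z, hz⟩ := hψ.1.2 (y, fun _ => 0)
      have hzf : R.Fib z := by
        rw [hG, hz]
        exact ⟨hy, fun j => R.fib_zero _ _⟩
      have h1 := hfy z hzf
      rw [hp _ _ hzf, Arith.intSum, (hφ.2 x f).1, hz, hx] at h1
      have h2 : ∀ k : Fin b, R.int ((φ (x - f)).2 k) (0 : R.H (i1 - ((Fin.rev k : ℕ) + 1)) Y) = 0 :=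
        fun k => R.int_zero _
      rw [Finset.sum_eq_zero fun k _ => h2 k, sub_zero] at h1
      exact h1
    · obtain rfl := dim_inj hY hD1
      have hjr : ((Fin.rev j : Fin b) : ℕ) + (j : ℕ) + 1 = b := by
        rw [Fin.val_rev]
        omega
      obtain rfl : i1 = i' - (((Fin.rev j : Fin b) : ℕ) + 1) := by
        have : (((Fin.rev j : Fin b) : ℕ) : ℤ) + ((j : ℕ) : ℤ) + 1 = b := by exact_mod_cast hjr
        have h3 : (D : ℤ) = e + (b + 1) := by exact_mod_cast hb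
        linarith
      obtain ⟨x, hx⟩ := hφ.1.2 (0, Pi.single j a)
      obtain ⟨f, hf, hfy⟩ := hL D i' hB hD x
      refine ⟨(φ f).2 j, ((hF f).mp hf).2 j, fun y hy => ?_⟩
      obtain ⟨z, hz⟩ := hψ.1.2 (0, Pi.single (Fin.rev j) y)
      have hzf : R.Fib z := by
        rw [hG, hz]
        refine ⟨R.fib_zero _ _, fun k => ?_⟩
        show R.Fib ((Pi.single (Fin.rev j) y : ∀ j : Fin b, R.H (i' - ((j : ℕ) + 1)) Y) k)
        by_cases hk : k = Fin.rev j
        · subst hk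
          rw [Pi.single_eq_same]
          exact hy
        · rw [Pi.single_eq_of_ne hk]
          exact R.fib_zero _ _
      have h1 := hfy z hzf
      rw [hp _ _ hzf, Arith.intSum, hz] at h1
      rw [Finset.sum_eq_single j] at h1
      · have h2 : R.int (φ (x - f)).1 (0 : R.H i' X) = 0 := R.int_zero _
        have h4 : (Pi.single (Fin.rev j) y : ∀ j : Fin b, R.H (i' - ((j : ℕ) + 1)) Y) (Fin.rev j) = y :=
          Pi.single_eq_same _ _
        have h3 : (φ (x - f)).2 j = a - (φ f).2 j := by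
          rw [(hφ.2 x f).2 j, hx]
          show (Pi.single j a : ∀ j : Fin b, R.H (i - ((j : ℕ) + 1)) Y) j - (φ f).2 j = _
          rw [Pi.single_eq_same]
        rw [h3] at h1
        change R.int (φ (x - f)).1 (0 : R.H i' X) - R.int (a - (φ f).2 j)
          ((Pi.single (Fin.rev j) y : ∀ j : Fin b, R.H (i' - ((j : ℕ) + 1)) Y) (Fin.rev j)) = 0 at h1
        rw [h2, h4, zero_sub, neg_eq_zero] at h1
        exact h1
      · intro k _ hk
        have h2 : (Pi.single (Fin.rev j) y : ∀ j : Fin b, R.H (i' - ((j : ℕ) + 1)) Y)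
            (Fin.rev k) = 0 := by
          rw [Pi.single_eq_of_ne]
          intro h
          exact hk (Fin.rev_injective h)
        show R.int ((φ (x - f)).2 k)
          ((Pi.single (Fin.rev j) y : ∀ j : Fin b, R.H (i' - ((j : ℕ) + 1)) Y) (Fin.rev k)) = 0
        rw [h2]
        exact R.int_zero _
      · intro h
        exact absurd (Finset.mem_univ j) h
  · rintro ⟨h1, h2⟩ D1 i1 hD1 hi1 x
    obtain rfl := dim_inj hB hD1
    obtain rfl : i1 = i' := by linarith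
    obtain ⟨f0, hf0, hy0⟩ := h1 D i1 hX hD (φ x).1
    have h3 : ∀ j : Fin b, ∃ f : R.H (i - ((j : ℕ) + 1)) Y, R.Fib f ∧
        ∀ y : R.H (i1 - (((Fin.rev j : Fin b) : ℕ) + 1)) Y, R.Fib y →
          R.int ((φ x).2 j - f) y = 0 := by
      intro j
      have hjr : ((Fin.rev j : Fin b) : ℕ) + (j : ℕ) + 1 = b := by
        rw [Fin.val_rev]
        omega
      refine h2 j e _ hY ?_ ((φ x).2 j)
      have h4 : (((Fin.rev j : Fin b) : ℕ) : ℤ) + ((j : ℕ) : ℤ) + 1 = b := by exact_mod_cast hjr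
      have h5 : (D : ℤ) = e + (b + 1) := by exact_mod_cast hb
      linarith
    choose f hf hy using h3
    obtain ⟨z, hz⟩ := hφ.1.2 (f0, f)
    refine ⟨z, ?_, fun y hyf => ?_⟩
    · rw [hF, hz]
      exact ⟨hf0, hf⟩
    · have h7 := (hG y).mp hyf
      rw [hp _ _ hyf, Arith.intSum, (hφ.2 x z).1]
      have h6 : ∑ j : Fin b, R.int ((φ (x - z)).2 j) ((ψ y).2 (Fin.rev j)) = 0 :=
        Finset.sum_eq_zero fun j _ => by
          rw [(hφ.2 x z).2 j, hz]
          exact hy j _ (h7.2 _)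
      rw [h6, sub_zero, hz]
      exact hy0 (ψ y).1 h7.1

theorem lifts_blowUp (hR : R.Known) {X Y B : Scheme.{0}} (h : FlatBlowUp X Y B) :
    ∃ e b D : ℕ, 1 ≤ b ∧ D = e + (b + 1) ∧
      topologicalKrullDim Y = ((e : ℕ) : WithBot ℕ∞) ∧
      topologicalKrullDim X = ((D : ℕ) : WithBot ℕ∞) ∧ RegProj B ∧ FlatZ B ∧
      ∀ i : ℤ, R.Lifts i B ↔ R.Lifts i X ∧ ∀ j : Fin b, R.Lifts (i - ((j : ℕ) + 1)) Y := by
  obtain ⟨hX, fX, hY, fY, i, π, hi, hd, hπ⟩ := h
  obtain ⟨e, he⟩ := dim_nat1 hR.space hY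
  obtain ⟨D, hD⟩ := dim_nat1 hR.space hX
  have hd1 := hd
  rw [he, hD] at hd1
  have hd' : e + 2 ≤ D := by exact_mod_cast hd1
  obtain ⟨b, hb⟩ : ∃ b : ℕ, D = e + (b + 1) := ⟨D - e - 1, by omega⟩
  have hdim : topologicalKrullDim X = topologicalKrullDim Y + ((b + 1 : ℕ) : WithBot ℕ∞) := by
    rw [he, hD, hb]
    push_cast
    ring
  obtain ⟨rB, fB, dB, hs⟩ := (hR.blowUp X Y b i hX fX hY fY hi (by omega) hdim).2 B π hπ
  refine ⟨e, b, D, by omega, hb, he, hD, rB, fB, fun m => ?_⟩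
  have hm : m + ((D : ℤ) - m) = D := by ring
  exact lifts_splits hm hD (dB.trans hD) he hb (hs D m _ hD hm)

/-- invariance -/
theorem lifts_iff (hR : R.Known) {X Y B : Scheme.{0}} (h : FlatBlowUp X Y B)
    (hY : ∀ m, R.Lifts m Y) (i : ℤ) : R.Lifts i X ↔ R.Lifts i B := by
  obtain ⟨e, b, D, -, -, -, -, -, -, hl⟩ := lifts_blowUp hR h
  rw [hl i]
  exact ⟨fun h1 => ⟨h1, fun j => hY _⟩, fun h1 => h1.1⟩

lemma lifts_trivial {X : Scheme.{0}} {i : ℤ} (h : Subsingleton (R.H i X)) : R.Lifts i X := by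
  intro D i' _ _ x
  refine ⟨0, R.fib_zero _ _, fun y _ => ?_⟩
  rw [Subsingleton.elim (x - 0) 0]
  exact R.zero_int y

/-- One scheme `Y` and the blow-up of `P^(2n-1)` in `Y`, in the middle codimension `n`. -/
theorem lifts_middle (hR : R.Known) {Y B : Scheme.{0}} {n e : ℕ}
    (he : topologicalKrullDim Y = ((e : ℕ) : WithBot ℕ∞)) (hn : e < n)
    (h : FlatBlowUp (PS (2 * n - 1)) Y B) : (∀ m, R.Lifts m Y) ↔ R.Lifts n B := by
  obtain ⟨e1, b, D, hb, hD, he1, hDX, -, -, hl⟩ := lifts_blowUp hR h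
  obtain rfl := dim_inj he he1
  have hDn : D = 2 * n - 1 + 1 := dim_inj hDX (hR.space _).2.2.1
  rw [hl n]
  refine ⟨fun h1 => ⟨hR.smooth _ _, fun j => h1 _⟩, fun h1 m => ?_⟩
  by_cases h0 : m < 0 ∨ (e : ℤ) < m
  · exact lifts_trivial (hR.zero Y e m h.2.2.1 h.2.2.2.1 he h0)
  · rw [not_or, not_lt, not_lt] at h0
    obtain ⟨k, rfl⟩ : ∃ k : ℕ, m = k := ⟨m.toNat, by omega⟩
    have hk : k ≤ e := by exact_mod_cast h0.2
    have h2 := h1.2 ⟨n - 1 - k, by omega⟩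
    have h3 : (n : ℤ) - (((⟨n - 1 - k, by omega⟩ : Fin b) : ℕ) + 1) = k := by
      show (n : ℤ) - (((n - 1 - k : ℕ) : ℤ) + 1) = k
      omega
    rw [h3] at h2
    exact h2

/-- the blow-up of `P^(2n-1)` in `Y` exists for large `n` -/
lemma exists_middle (hR : R.Known) {Y : Scheme.{0}} {e : ℕ} (hY : RegProj Y) (fY : FlatZ Y)
    (he : topologicalKrullDim Y = ((e : ℕ) : WithBot ℕ∞)) :
    ∃ n0 : ℕ, ∀ n, n0 < n → ∃ B, FlatBlowUp (PS (2 * n - 1)) Y B := by
  obtain ⟨N0, hN0⟩ := embeds1 hR.space hY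
  refine ⟨max (e + 1) N0, fun n hn => ?_⟩
  have hn1 : e + 1 < n := lt_of_le_of_lt (le_max_left _ _) hn
  have hn2 : N0 < n := lt_of_le_of_lt (le_max_right _ _) hn
  obtain ⟨i, hi⟩ := hN0 (2 * n - 1) (by omega)
  have hs := hR.space (2 * n - 1)
  have hdim : topologicalKrullDim (PS (2 * n - 1)) =
      topologicalKrullDim Y + ((2 * n - 1 - e : ℕ) + 1 : ℕ) := by
    rw [hs.2.2.1, he]
    have : 2 * n - 1 + 1 = e + (2 * n - 1 - e + 1) := by omega
    rw [this]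
    push_cast
    ring
  obtain ⟨⟨B, π, hπ⟩, -⟩ := hR.blowUp _ Y (2 * n - 1 - e) i hs.1 hs.2.1 hY fY hi (by omega) hdim
  refine ⟨B, hs.1, hs.2.1, hY, fY, i, π, hi, ?_, hπ⟩
  rw [hdim]
  refine add_le_add le_rfl ?_
  have : 2 ≤ 2 * n - 1 - e + 1 := by omega
  exact_mod_cast this

theorem lifts_all (hR : R.Known) (T : Set ℕ) (hT : T.Infinite) :
    (∀ X : Scheme.{0}, RegProj X → FlatZ X → ∀ i, R.Lifts i X) ↔
      ∀ n ∈ T, ∀ Y B : Scheme.{0}, FlatBlowUp (PS (2 * n - 1)) Y B → R.Lifts n B := by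
  constructor
  · intro h n _ Y B hB
    obtain ⟨_, _, _, _, _, _, _, rB, fB, _⟩ := lifts_blowUp hR hB
    exact h B rB fB n
  · intro h Y hY fY
    obtain ⟨e, he⟩ := dim_nat1 hR.space hY
    obtain ⟨n0, hn0⟩ := exists_middle hR hY fY he
    obtain ⟨n, hnT, hn⟩ := hT.exists_gt (max e n0)
    obtain ⟨B, hB⟩ := hn0 n (lt_of_le_of_lt (le_max_right _ _) hn)
    exact (lifts_middle hR he (lt_of_le_of_lt (le_max_left _ _) hn) hB).mpr (h n hnT Y B hB)

theorem lifts_dim (hR : R.Known) (T : Set ℕ) (hT : T.Infinite) (D : ℕ) :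
    (∀ X : Scheme.{0}, RegProj X → FlatZ X → topologicalKrullDim X ≤ ((D : ℕ) : WithBot ℕ∞) →
        ∀ i, R.Lifts i X) ↔
      ∀ n ∈ T, D < n → ∀ Y B : Scheme.{0}, topologicalKrullDim Y ≤ ((D : ℕ) : WithBot ℕ∞) →
        FlatBlowUp (PS (2 * n - 1)) Y B → R.Lifts n B := by
  constructor
  · intro h n _ hn Y B hd hB
    obtain ⟨e, he⟩ := dim_nat1 hR.space hB.2.2.1
    have heD : e ≤ D := by
      rw [he] at hd
      exact_mod_cast hd
    exact (lifts_middle hR he (lt_of_le_of_lt heD hn) hB).mp (h Y hB.2.2.1 hB.2.2.2.1 hd)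
  · intro h Y hY fY hd
    obtain ⟨e, he⟩ := dim_nat1 hR.space hY
    have heD : e ≤ D := by
      rw [he] at hd
      exact_mod_cast hd
    obtain ⟨n0, hn0⟩ := exists_middle hR hY fY he
    obtain ⟨n, hnT, hn⟩ := hT.exists_gt (max D n0)
    have hnD : D < n := lt_of_le_of_lt (le_max_left _ _) hn
    obtain ⟨B, hB⟩ := hn0 n (lt_of_le_of_lt (le_max_right _ _) hn)
    exact (lifts_middle hR he (lt_of_le_of_lt heD hnD) hB).mpr (h n hnT hnD Y B hd hB)

end Pool.Agent.Run7.h384.BU
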