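import Pool.Agent.Run7.h384.BU.Ana
import Pool.Agent.Run7.h384.BU.Alg

/-!
# Soulé's conjecture for blow-ups of projective spaces
-/

set_option autoImplicit false

open CategoryTheory CategoryTheory.Limits AlgebraicGeometry Finset

namespace Pool.Agent.Run7.h384.BU

lemma numeric (a : ℕ → ℤ) (h : ∀ r : ℕ, ∃ c : ℕ, ∀ b ≥ c, ∑ i ∈ range b, ∑ j ∈ range (r + 1),
    a (i + j) = 0) : ∀ k, a k = 0 := by
  obtain ⟨c0, hc0⟩ := h 0
  have h0 : ∀ b ≥ c0, ∑ i ∈ range b, a i = 0 := fun b hb => by simpa using hc0 b hb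
  have key : ∀ j, ∀ b ≥ c0, ∑ i ∈ range b, a (i + j) = -∑ i ∈ range j, a i := by
    intro j b hb
    have h1 := Finset.sum_range_add a j b
    have h2 := h0 (j + b) (by omega)
    rw [h1] at h2
    have h3 : ∑ i ∈ range b, a (i + j) = ∑ x ∈ range b, a (j + x) :=
      Finset.sum_congr rfl fun i _ => by rw [add_comm]
    rw [h3]
    linarith
  have hP : ∀ r : ℕ, ∑ j ∈ range (r + 1), ∑ i ∈ range j, a i = 0 := by
    intro r
    obtain ⟨c, hc⟩ := h r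
    have h1 := hc (max c c0) (le_max_left _ _)
    rw [Finset.sum_comm] at h1
    have h2 : ∑ j ∈ range (r + 1), ∑ i ∈ range (max c c0), a (i + j) =
        ∑ j ∈ range (r + 1), -∑ i ∈ range j, a i :=
      Finset.sum_congr rfl fun j _ => key j _ (le_max_right _ _)
    rw [h2, Finset.sum_neg_distrib] at h1
    linarith
  have hP1 : ∀ r : ℕ, ∑ i ∈ range r, a i = 0 := by
    intro r
    cases r with
    | zero => simp
    | succ r =>
      have h1 := hP (r + 1)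
      rw [Finset.sum_range_succ, hP r] at h1
      linarith
  intro k
  have h1 := hP1 (k + 1)
  rw [Finset.sum_range_succ, hP1 k] at h1
  linarith

lemma Ord.unshift {f : ℂ → ℂ} {n t v : ℤ} (h : Ord (fun s => f (s - t)) n v) : Ord f (n - t) v := by
  have h1 : Ord (fun s => f (s - t)) ((n - t) - (-t)) v := by
    rw [show (n - t) - (-t) = n by ring]
    exact h
  have h2 := h1.shift
  refine h2.congr ⟨0, fun s _ => ?_⟩
  show f s = f (s - ((-t : ℤ) : ℂ) - t)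
  congr 1
  push_cast
  ring

lemma embeds {Y : Scheme.{0}} (C : Chow) (hC : C.Known) (hY : RegProj Y) :
    ∃ N0 : ℕ, ∀ N ≥ N0, ∃ i : Y ⟶ PS N, IsClosedImmersion i := by
  obtain ⟨_, _, _, N0, i0, hi0⟩ := hY
  refine ⟨N0, fun N hN => ?_⟩
  induction N, hN using Nat.le_induction with
  | base => exact ⟨i0, hi0⟩
  | succ N hN ih =>
    obtain ⟨i, hi⟩ := ih
    obtain ⟨_, _, _, j, hj⟩ := hC.space N
    exact ⟨i ≫ j, inferInstance⟩

lemma dim_nat {Y : Scheme.{0}} (C : Chow) (hC : C.Known) (hY : RegProj Y) :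
    ∃ e : ℕ, topologicalKrullDim Y = ((e : ℕ) : WithBot ℕ∞) := by
  obtain ⟨_, _, hc, N, i, hi⟩ := hY
  have h1 : topologicalKrullDim Y ≤ topologicalKrullDim (PS N) :=
    i.isClosedEmbedding.isInducing.topologicalKrullDim_le
  rw [(hC.space N).2.2.1] at h1
  have hne : Nonempty Y := inferInstance
  obtain ⟨y⟩ := hne
  have h0 : 0 ≤ topologicalKrullDim Y := by
    have : Nonempty (TopologicalSpace.IrreducibleCloseds Y) :=
      ⟨⟨closure {y}, isIrreducible_singleton.closure, isClosed_closure⟩⟩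
    exact Order.krullDim_nonneg
  generalize hd : topologicalKrullDim Y = d at h0 h1
  induction d with
  | bot => simp at h0
  | coe d =>
    induction d with
    | top =>
      exfalso
      have h2 : ((⊤ : ℕ∞) : WithBot ℕ∞) ≤ (((N + 1 : ℕ) : ℕ∞) : WithBot ℕ∞) := h1
      rw [WithBot.coe_le_coe] at h2
      exact absurd (top_le_iff.mp h2) (ENat.coe_ne_top _)
    | coe e => exact ⟨e, rfl⟩

section data

variable {C : Chow}

lemma blow_data (hC : C.Known) {N b : ℕ} {Y B : Scheme.{0}} {i : Y ⟶ PS N} {π : B ⟶ PS N}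
    (hY : RegProj Y) (hi : IsClosedImmersion i) (hb : 1 ≤ b)
    (hdim : topologicalKrullDim (PS N) = topologicalKrullDim Y + ((b + 1 : ℕ) : WithBot ℕ∞))
    (hπ : IsBlowUp i π) (hfin : ∀ n < 0, C.FinRank n Y) :
    C.FinRank 0 B ∧ C.chi 0 B = C.chi 0 (PS N) + ∑ j : Fin b, C.chi (-((j : ℕ) + 1)) Y := by
  obtain ⟨-, -, e, -⟩ := (hC.blowUp (PS N) Y b i (hC.space N).1 hY hi hb hdim).2 B π hπ
  have e1 := e 0
  have hP : C.FinRank 0 (PS N) := (hC.borel N).1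
  have h1 : ∀ j : Fin b, Fin1 (fun k => C.A (0 - ((j : ℕ) + 1)) k Y) := fun j =>
    hfin (0 - ((j : ℕ) + 1)) (by omega)
  have h2 : Fin1 (fun k => C.A 0 k (PS N) × (∀ j : Fin b, C.A (0 - ((j : ℕ) + 1)) k Y)) :=
    Fin1.prod_iff.mpr ⟨hP, Fin1.pi_iff.mpr h1⟩
  refine ⟨h2.iso fun k => ⟨(e1 k).some.symm⟩, ?_⟩
  have h3 : C.chi 0 B = chi1 (fun k => C.A 0 k (PS N) × (∀ j : Fin b, C.A (0 - ((j : ℕ) + 1)) k Y)) :=
    chi1_iso e1
  rw [h3, chi1_prod hP (Fin1.pi_iff.mpr h1), chi1_pi h1]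
  refine congrArg₂ (· + ·) rfl (Finset.sum_congr rfl fun j _ => ?_)
  rw [← zero_sub]
  rfl

lemma blow_ord (hC : C.Known) {N b : ℕ} {Y B : Scheme.{0}} {i : Y ⟶ PS N} {π : B ⟶ PS N}
    (hY : RegProj Y) (hi : IsClosedImmersion i) (hb : 1 ≤ b)
    (hdim : topologicalKrullDim (PS N) = topologicalKrullDim Y + ((b + 1 : ℕ) : WithBot ℕ∞))
    (hπ : IsBlowUp i π) (v : ℤ → ℤ) (hv : ∀ n < 0, Ord (zeta Y) n (v n)) :
    Ord (zeta B) 0 (-C.chi 0 (PS N) + ∑ j : Fin b, v (-((j : ℕ) + 1))) := by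
  obtain ⟨-, -, -, hz⟩ := (hC.blowUp (PS N) Y b i (hC.space N).1 hY hi hb hdim).2 B π hπ
  have h1 : Ord (fun s => ∏ j : Fin b, zeta Y (s - (((j : ℕ) + 1 : ℤ) : ℂ))) 0
      (∑ j : Fin b, v (-((j : ℕ) + 1))) := by
    refine Ord.prod _ _ _ fun j _ => ?_
    refine Ord.shift ?_
    rw [zero_sub]
    exact hv _ (by omega)
  refine ((hC.borel N).2.mul h1).congr ?_
  obtain ⟨σ, hσ⟩ := hz
  refine ⟨σ, fun s hs => ?_⟩
  rw [hσ s hs]
  push_cast
  rfl

lemma bundle_data (hC : C.Known) {Y : Scheme.{0}} (r : ℕ) (hY : RegProj Y)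
    (hfin : ∀ n < 0, C.FinRank n Y) (v : ℤ → ℤ) (hv : ∀ n < 0, Ord (zeta Y) n (v n)) (n : ℤ)
    (hn : n < 0) : C.FinRank n (timesPS Y r) ∧
      C.chi n (timesPS Y r) = ∑ j : Fin (r + 1), C.chi (n - (j : ℕ)) Y ∧
      Ord (zeta (timesPS Y r)) n (∑ j : Fin (r + 1), v (n - (j : ℕ))) := by
  obtain ⟨-, -, e, σ, hσ⟩ := hC.bundle Y r hY
  have e1 := e n
  have h1 : ∀ j : Fin (r + 1), Fin1 (fun k => C.A (n - (j : ℕ)) k Y) := fun j =>
    hfin (n - (j : ℕ)) (by omega)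
  refine ⟨(Fin1.pi_iff.mpr h1).iso fun k => ⟨(e1 k).some.symm⟩, ?_, ?_⟩
  · have h3 : C.chi n (timesPS Y r) = chi1 (fun k => ∀ j : Fin (r + 1), C.A (n - (j : ℕ)) k Y) :=
      chi1_iso e1
    rw [h3, chi1_pi h1]
    rfl
  · have h2 : Ord (fun s => ∏ j : Fin (r + 1), zeta Y (s - (((j : ℕ) : ℤ) : ℂ))) n
        (∑ j : Fin (r + 1), v (n - (j : ℕ))) := by
      refine Ord.prod _ _ _ fun j _ => ?_
      exact Ord.shift (hv _ (by omega))
    refine h2.congr ⟨σ, fun s hs => ?_⟩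
    rw [hσ s hs]
    push_cast
    rfl

/-- The identity for all blow-ups of projective spaces `P^N`, `N ≥ c`, in the centre `Y` -/
def Hyp (C : Chow) (c : ℕ) (Y : Scheme.{0}) : Prop :=
  ∀ (N b : ℕ) (B : Scheme.{0}) (i : Y ⟶ PS N) (π : B ⟶ PS N), c ≤ N → IsClosedImmersion i →
    1 ≤ b → topologicalKrullDim (PS N) = topologicalKrullDim Y + ((b + 1 : ℕ) : WithBot ℕ∞) →
    IsBlowUp i π → C.FinRank 0 B → ∀ u, Ord (zeta B) 0 u → u = -C.chi 0 B

/-- The conjecture for all blow-ups of projective spaces `P^N`, `N ≥ c`, in the centre `Y` -/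
def HypS (C : Chow) (c : ℕ) (Y : Scheme.{0}) : Prop :=
  ∀ (N b : ℕ) (B : Scheme.{0}) (i : Y ⟶ PS N) (π : B ⟶ PS N), c ≤ N → IsClosedImmersion i →
    1 ≤ b → topologicalKrullDim (PS N) = topologicalKrullDim Y + ((b + 1 : ℕ) : WithBot ℕ∞) →
    IsBlowUp i π → C.Soule 0 B

lemma HypS.hyp {c : ℕ} {Y : Scheme.{0}} (h : HypS C c Y) : Hyp C c Y :=
  fun N b B i π hN hi hb hdim hπ _ _ hu => hu.unique (h N b B i π hN hi hb hdim hπ).2

/-- the situation for large `b` -/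
lemma situation (hC : C.Known) {Y : Scheme.{0}} (hY : RegProj Y) (c0 : ℕ) :
    ∃ c : ℕ, 1 ≤ c ∧ ∀ b ≥ c,
    ∃ (N : ℕ) (B : Scheme.{0}) (i : Y ⟶ PS N) (π : B ⟶ PS N), c0 ≤ N ∧ IsClosedImmersion i ∧
      topologicalKrullDim (PS N) = topologicalKrullDim Y + ((b + 1 : ℕ) : WithBot ℕ∞) ∧
      IsBlowUp i π := by
  obtain ⟨N0, hN0⟩ := embeds C hC hY
  obtain ⟨e, he⟩ := dim_nat C hC hY
  refine ⟨max (max 1 N0) c0, (le_max_left _ _).trans (le_max_left _ _), fun b hb => ?_⟩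
  have hb1 : 1 ≤ b := ((le_max_left _ _).trans (le_max_left _ _)).trans hb
  have hb2 : N0 ≤ b := ((le_max_right _ _).trans (le_max_left _ _)).trans hb
  have hb3 : c0 ≤ b := (le_max_right _ _).trans hb
  obtain ⟨i, hi⟩ := hN0 (e + b) (by omega)
  have hdim : topologicalKrullDim (PS (e + b)) =
      topologicalKrullDim Y + ((b + 1 : ℕ) : WithBot ℕ∞) := by
    rw [(hC.space _).2.2.1, he]
    push_cast
    ring
  obtain ⟨B, π, hπ⟩ := (hC.blowUp _ Y b i (hC.space _).1 hY hi hb1 hdim).1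
  exact ⟨e + b, B, i, π, by omega, hi, hdim, hπ⟩

lemma sum_zero (hC : C.Known) {c0 : ℕ} {Y : Scheme.{0}} (hH : Hyp C c0 Y) (hY : RegProj Y)
    (hfin : ∀ n < 0, C.FinRank n Y) (v : ℤ → ℤ) (hv : ∀ n < 0, Ord (zeta Y) n (v n)) :
    ∃ c : ℕ, ∀ b ≥ c, ∑ i ∈ range b, (v (-((i : ℕ) + 1)) + C.chi (-((i : ℕ) + 1)) Y) = 0 := by
  obtain ⟨c, hc1, hc⟩ := situation hC hY c0
  refine ⟨c, fun b hb => ?_⟩
  obtain ⟨N, B, i, π, hN, hi, hdim, hπ⟩ := hc b hb
  have hb1 : 1 ≤ b := hc1.trans hb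
  obtain ⟨h1, h2⟩ := blow_data hC hY hi hb1 hdim hπ hfin
  have h3 := blow_ord hC hY hi hb1 hdim hπ v hv
  have h4 := hH N b B i π hN hi hb1 hdim hπ h1 _ h3
  rw [h2] at h4
  rw [Finset.sum_add_distrib, Finset.sum_range, Finset.sum_range]
  linarith

theorem orders (hC : C.Known) {Y : Scheme.{0}} (g : ℕ → ℕ) (hH : ∀ r, Hyp C (g r) (timesPS Y r))
    (hY : RegProj Y) (h : ∀ n < 0, C.FinRank n Y ∧ ∃ v, Ord (zeta Y) n v) :
    ∀ n < 0, C.Soule n Y := by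
  have hfin : ∀ n < 0, C.FinRank n Y := fun n hn => (h n hn).1
  obtain ⟨v, hv⟩ : ∃ v : ℤ → ℤ, ∀ n < 0, Ord (zeta Y) n (v n) := by
    classical
    refine ⟨fun n => if hn : n < 0 then (h n hn).2.choose else 0, fun n hn => ?_⟩
    simp only [dif_pos hn]
    exact (h n hn).2.choose_spec
  have key := numeric (fun k => v (-((k : ℤ) + 1)) + C.chi (-((k : ℤ) + 1)) Y) (fun r => by
    have hb := bundle_data hC r hY hfin v hv
    obtain ⟨c, hc⟩ := sum_zero hC (hH r) (hC.bundle Y r hY).1 (fun n hn => (hb n hn).1)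
      (fun n => ∑ j : Fin (r + 1), v (n - (j : ℕ))) (fun n hn => (hb n hn).2.2)
    refine ⟨c, fun b hbc => ?_⟩
    rw [← hc b hbc]
    refine Finset.sum_congr rfl fun i _ => ?_
    rw [(hb (-((i : ℤ) + 1)) (by omega)).2.1, ← Finset.sum_add_distrib, Finset.sum_range]
    refine Finset.sum_congr rfl fun j _ => ?_
    have : (-(((i + (j : ℕ) : ℕ) : ℤ) + 1)) = -((i : ℤ) + 1) - (j : ℕ) := by
      push_cast
      ring
    rw [this])
  intro n hn
  refine ⟨hfin n hn, ?_⟩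
  obtain ⟨k, hk⟩ : ∃ k : ℕ, n = -((k : ℤ) + 1) := ⟨(-n - 1).toNat, by omega⟩
  have h1 := key k
  simp only [← hk] at h1
  have h2 := hv n hn
  rwa [show v n = -C.chi n Y by linarith] at h2

/-- Soulé's conjecture at `s = 0` for the blow-ups of projective spaces in `Y` gives the
finiteness and the continuation for all negative integers. -/
theorem finite_and_order (hC : C.Known) {c0 : ℕ} {Y : Scheme.{0}} (hS : HypS C c0 Y)
    (hY : RegProj Y) : ∀ n < 0, C.FinRank n Y ∧ ∃ v, Ord (zeta Y) n v := by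
  intro n hn
  obtain ⟨k, hk⟩ : ∃ k : ℕ, n = -((k : ℤ) + 1) := ⟨(-n - 1).toNat, by omega⟩
  obtain ⟨c, hc1, hc⟩ := situation hC hY c0
  obtain ⟨b, hbc, hbk⟩ : ∃ b : ℕ, c ≤ b ∧ k < b := ⟨max c (k + 1), le_max_left _ _,
    lt_of_lt_of_le (Nat.lt_succ_self k) (le_max_right _ _)⟩
  obtain ⟨N, B, i, π, hN, hi, hdim, hπ⟩ := hc b hbc
  obtain ⟨N', B', i', π', hN', hi', hdim', hπ'⟩ := hc (b + 1) (by omega)
  have hb1 : 1 ≤ b := hc1.trans hbc
  have s1 := hS N b B i π hN hi hb1 hdim hπ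
  have s2 := hS N' (b + 1) B' i' π' hN' hi' (by omega) hdim' hπ'
  obtain ⟨rB, -, e, σ, hσ⟩ := (hC.blowUp (PS N) Y b i (hC.space N).1 hY hi hb1 hdim).2 B π hπ
  obtain ⟨rB', -, -, τ, hτ⟩ :=
    (hC.blowUp (PS N') Y (b + 1) i' (hC.space N').1 hY hi' (by omega) hdim').2 B' π' hπ'
  constructor
  · have h1 : Fin1 (fun k => C.A 0 k (PS N) × (∀ j : Fin b, C.A (0 - ((j : ℕ) + 1)) k Y)) :=
      Fin1.iso (fun k => ⟨(e 0 k).some⟩) s1.1
    have h2 := Fin1.pi_iff.mp (Fin1.prod_iff.mp h1).2 ⟨k, hbk⟩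
    have h3 : (0 : ℤ) - (((⟨k, hbk⟩ : Fin b) : ℕ) + 1) = n := by
      rw [hk, zero_sub]
    rw [← h3]
    exact h2
  · have o1 : Ord (fun s => (zeta B' s * zeta (PS N) s) * (zeta B s * zeta (PS N') s)⁻¹) 0
        ((-C.chi 0 B' + -C.chi 0 (PS N)) + -(-C.chi 0 B + -C.chi 0 (PS N'))) :=
      (s2.2.mul (hC.borel N).2).mul (s1.2.mul (hC.borel N').2).inv
    obtain ⟨σ1, hσ1⟩ := hC.euler B rB
    obtain ⟨σ2, hσ2⟩ := hC.euler (PS N') (hC.space N').1
    have o2 : Ord (fun s => zeta Y (s - (((b : ℕ) + 1 : ℤ) : ℂ))) 0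
        ((-C.chi 0 B' + -C.chi 0 (PS N)) + -(-C.chi 0 B + -C.chi 0 (PS N'))) := by
      refine o1.congr ⟨max (max σ τ) (max σ1 σ2), fun s hs => ?_⟩
      have hs1 : σ < s.re := lt_of_le_of_lt ((le_max_left _ _).trans (le_max_left _ _)) hs
      have hs2 : τ < s.re := lt_of_le_of_lt ((le_max_right _ _).trans (le_max_left _ _)) hs
      have hs3 : σ1 < s.re := lt_of_le_of_lt ((le_max_left _ _).trans (le_max_right _ _)) hs
      have hs4 : σ2 < s.re := lt_of_le_of_lt ((le_max_right _ _).trans (le_max_right _ _)) hs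
      have n1 := hσ1 s hs3
      have n2 := hσ2 s hs4
      have z1 := hσ s hs1
      have z2 := hτ s hs2
      show zeta Y (s - (((b : ℕ) + 1 : ℤ) : ℂ)) =
        (zeta B' s * zeta (PS N) s) * (zeta B s * zeta (PS N') s)⁻¹
      rw [eq_mul_inv_iff_mul_eq₀ (mul_ne_zero n1 n2), z2, Fin.prod_univ_castSucc, z1]
      simp only [Fin.val_castSucc, Fin.val_last]
      push_cast
      ring
    have o3 := Ord.unshift o2
    refine o3.mono (hC.euler Y hY) ?_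
    rw [hk, zero_sub]
    omega

/-- the same for `Y` in place of `Y × P^0` -/
theorem finite_and_order' (hC : C.Known) {c0 : ℕ} {Y : Scheme.{0}} (hS : HypS C c0 (timesPS Y 0))
    (hY : RegProj Y) : ∀ n < 0, C.FinRank n Y ∧ ∃ v, Ord (zeta Y) n v := by
  intro n hn
  obtain ⟨rY, -, e, σ, hσ⟩ := hC.bundle Y 0 hY
  obtain ⟨h1, v, hv⟩ := finite_and_order hC hS rY n hn
  constructor
  · have h2 : Fin1 (fun k => ∀ j : Fin (0 + 1), C.A (n - (j : ℕ)) k Y) :=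
      Fin1.iso (fun k => ⟨(e n k).some⟩) h1
    have h3 := Fin1.pi_iff.mp h2 0
    have h4 : n - (((0 : Fin (0 + 1)) : ℕ) : ℤ) = n := by simp
    rw [← h4]
    exact h3
  · refine ⟨v, hv.congr ⟨σ, fun s hs => ?_⟩⟩
    rw [hσ s hs]
    simp

end data

end Pool.Agent.Run7.h384.BU
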